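import Pool.Agent.H82.PRP.Stmts

/-!
# The augmentation ideal is generated by `s j - 1`
-/

namespace Pool.Agent.H82.PRP

namespace GENL

variable {p : ℕ} [Fact p.Prime] {P : Type} [Group P] {k : ℕ}

/-- The left ideal generated by `s j - 1`. -/
noncomputable def J (p : ℕ) {P : Type} [Group P] {k : ℕ} (s : Fin k → P) :
    Ideal (MonoidAlgebra (ZMod p) P) :=
  Ideal.span (Set.range fun j => MonoidAlgebra.of (ZMod p) P (s j) - 1)

lemma mem_J {s : Fin k → P} {f : MonoidAlgebra (ZMod p) P} (h : f ∈ J p s) :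
    ∃ c : Fin k → MonoidAlgebra (ZMod p) P,
      f = ∑ j, c j * (MonoidAlgebra.of (ZMod p) P (s j) - 1) := by
  obtain ⟨c, hc⟩ := (Submodule.mem_span_range_iff_exists_fun _).1 h
  exact ⟨c, hc.symm⟩

/-- The elements `g` with `g - 1` in the left ideal form a subgroup. -/
noncomputable def S (p : ℕ) {P : Type} [Group P] {k : ℕ} (s : Fin k → P) : Subgroup P where
  carrier := {g | MonoidAlgebra.of (ZMod p) P g - 1 ∈ J p s}
  mul_mem' := by
    intro a b ha hb
    have h : MonoidAlgebra.of (ZMod p) P (a * b) - 1 =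
        MonoidAlgebra.of (ZMod p) P a * (MonoidAlgebra.of (ZMod p) P b - 1) +
          (MonoidAlgebra.of (ZMod p) P a - 1) := by
      rw [map_mul]
      noncomm_ring
    show MonoidAlgebra.of (ZMod p) P (a * b) - 1 ∈ J p s
    rw [h]
    exact (J p s).add_mem ((J p s).mul_mem_left _ hb) ha
  one_mem' := by
    show MonoidAlgebra.of (ZMod p) P 1 - 1 ∈ J p s
    rw [map_one, sub_self]
    exact (J p s).zero_mem
  inv_mem' := by
    intro a ha
    have h : MonoidAlgebra.of (ZMod p) P a⁻¹ - 1 =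
        -(MonoidAlgebra.of (ZMod p) P a⁻¹ * (MonoidAlgebra.of (ZMod p) P a - 1)) := by
      rw [mul_sub, ← map_mul, inv_mul_cancel, map_one, mul_one]
      noncomm_ring
    show MonoidAlgebra.of (ZMod p) P a⁻¹ - 1 ∈ J p s
    rw [h]
    exact (J p s).neg_mem ((J p s).mul_mem_left _ ha)

lemma of_mem {s : Fin k → P} (hs : Subgroup.closure (Set.range s) = ⊤) (g : P) :
    MonoidAlgebra.of (ZMod p) P g - 1 ∈ J p s := by
  have h : Subgroup.closure (Set.range s) ≤ S p s := by
    rw [Subgroup.closure_le]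
    rintro _ ⟨j, rfl⟩
    exact Ideal.subset_span ⟨j, rfl⟩
  rw [hs] at h
  exact h (Subgroup.mem_top g)

lemma sub_aug_mem {s : Fin k → P} (hs : Subgroup.closure (Set.range s) = ⊤)
    (f : MonoidAlgebra (ZMod p) P) :
    f - algebraMap (ZMod p) (MonoidAlgebra (ZMod p) P) (augMap p P f) ∈ J p s := by
  induction f using MonoidAlgebra.induction_on with
  | of g =>
    have h : augMap p P (MonoidAlgebra.of (ZMod p) P g) = 1 := by
      simp [augMap]
    rw [h, map_one]
    exact of_mem hs g
  | add f g hf hg =>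
    rw [map_add, map_add, add_sub_add_comm]
    exact (J p s).add_mem hf hg
  | smul r f hf =>
    have h : r • f - algebraMap (ZMod p) (MonoidAlgebra (ZMod p) P) (augMap p P (r • f)) =
        algebraMap (ZMod p) (MonoidAlgebra (ZMod p) P) r *
          (f - algebraMap (ZMod p) (MonoidAlgebra (ZMod p) P) (augMap p P f)) := by
      rw [map_smul, Algebra.smul_def, smul_eq_mul, map_mul, mul_sub]
    rw [h]
    exact (J p s).mul_mem_left _ hf

lemma exists_one {s : Fin k → P} (hs : Subgroup.closure (Set.range s) = ⊤)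
    (f : MonoidAlgebra (ZMod p) P) (hf : f ∈ augI p P) :
    ∃ c : Fin k → MonoidAlgebra (ZMod p) P,
      f = ∑ j, c j * (MonoidAlgebra.of (ZMod p) P (s j) - 1) := by
  have h := sub_aug_mem hs f
  have h0 : augMap p P f = 0 := hf
  rw [h0, map_zero, sub_zero] at h
  exact mem_J h

end GENL

theorem genl_thm (hA : AUGBStmt) : GENLStmt := by
  intro p _ P _ k s hs
  refine ⟨GENL.exists_one hs, fun n hn f hf => ?_⟩
  rw [pow_succ] at hf
  refine Submodule.mul_induction_on hf ?_ ?_
  · intro a ha b hb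
    obtain ⟨c, hc⟩ := GENL.exists_one hs b hb
    refine ⟨fun j => a * c j, fun j => ((hA p P).2.2.1 n hn (c j) a ha).2, ?_⟩
    rw [hc, Finset.mul_sum]
    simp only [mul_assoc]
  · rintro x y ⟨c, hc, hx⟩ ⟨c', hc', hy⟩
    refine ⟨fun j => c j + c' j, fun j => Submodule.add_mem _ (hc j) (hc' j), ?_⟩
    rw [hx, hy, ← Finset.sum_add_distrib]
    simp only [add_mul]

end Pool.Agent.H82.PRP
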